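import Pool.Agent.H209R3.Fun8
import Pool.Agent.H209R3.Gen8

set_option autoImplicit false

namespace Pool.Agent.Results.MP_9b502d_nt.DrinfeldRankTwoCurves

open Pool.Agent.H209R3 Pool.Agent.H209R3.Gen Pool.Agent.H209R3.Fun

/-- Let k be a perfect field of characteristic p > 0, K a finite extension of k(X) (i.e. the
function field of an arbitrary curve over k), q ≥ 3 a power of p and U a finite-dimensional
k-subspace of K. There is a bound B = B(K, q, U) such that every map
f(z) = c + a z + g z^q + Δ z^(q^2), with c, g, Δ in K, Δ ≠ 0, and a a quotient of two elements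
of U that is not a p-th power in K, has at most B preperiodic points in P^1(K). -/
theorem result :
    ∀ (p e : ℕ) (k : Type) [Field k] [PerfectField k] [CharP k p] (K : Type) [Field K]
      [Algebra k K] [Algebra (RatFunc k) K] [IsScalarTower k (RatFunc k) K]
      [FiniteDimensional (RatFunc k) K], p.Prime → 3 ≤ p ^ e →
      ∀ (U : Submodule k K) [FiniteDimensional k U], ∃ B : ℕ,
      ∀ a : K, (∀ b : K, b ^ p ≠ a) → (∃ u ∈ U, ∃ v ∈ U, v ≠ 0 ∧ a = u / v) →
      ∀ (c g Δ : K), Δ ≠ 0 → ∀ f : K → K,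
      (∀ z, f z = c + a * z + g * z ^ (p ^ e) + Δ * z ^ ((p ^ e) ^ 2)) →
      {P : OnePoint K | ∃ m n : ℕ, m < n ∧
          (OnePoint.map f)^[m] P = (OnePoint.map f)^[n] P}.encard ≤ (B : ℕ∞) := by
  intro p e k _ _ _ K _ _ _ _ _ hp hq U _
  haveI : Fact p.Prime := ⟨hp⟩
  haveI : CharP K p := charP_of_injective_algebraMap (algebraMap k K).injective p
  obtain ⟨B, hB⟩ := ubpL k K p e hq U
  refine ⟨B + 1, ?_⟩
  intro a ha hauv c g Δ hΔ f hf
  have h0 := hB a ha hauv g Δ hΔ (fun y => a * y + g * y ^ p ^ e + Δ * (y ^ p ^ e) ^ p ^ e)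
    (fun y => rfl)
  have h1 : {x : K | ∃ m n : ℕ, m < n ∧ f^[m] x = f^[n] x}.encard ≤ (B : ℕ∞) := by
    refine bound_affine (fun y => a * y + g * y ^ p ^ e + Δ * (y ^ p ^ e) ^ p ^ e) f ?_ _ h0
    intro x y
    have hpow : ∀ z : K, z ^ ((p ^ e) ^ 2) = (z ^ p ^ e) ^ p ^ e := by
      intro z; rw [pow_two, pow_mul]
    rw [hf, hf]
    simp only [hpow]
    have hsub : ∀ a b : K, (a - b) ^ p ^ e = a ^ p ^ e - b ^ p ^ e := by
      intro a b
      exact sub_pow_char_pow a b e
    rw [hsub, hsub]
    ring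
  have hiter : ∀ (n : ℕ) (x : K), (OnePoint.map f)^[n] (x : OnePoint K)
      = ((f^[n] x : K) : OnePoint K) := by
    intro n
    induction n with
    | zero => intro x; rfl
    | succ n ih =>
      intro x
      rw [Function.iterate_succ_apply, Function.iterate_succ_apply, ← ih]
      rfl
  have hsub : {P : OnePoint K | ∃ m n : ℕ, m < n ∧
          (OnePoint.map f)^[m] P = (OnePoint.map f)^[n] P} ⊆
      insert OnePoint.infty ((fun x : K => (x : OnePoint K)) ''
        {x : K | ∃ m n : ℕ, m < n ∧ f^[m] x = f^[n] x}) := by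
    intro P
    induction P using OnePoint.rec with
    | infty => intro _; exact Set.mem_insert _ _
    | coe x =>
      rintro ⟨m, n, hmn, hx⟩
      apply Set.mem_insert_of_mem
      refine ⟨x, ⟨m, n, hmn, ?_⟩, rfl⟩
      rw [hiter, hiter] at hx
      exact OnePoint.coe_injective hx
  refine le_trans (Set.encard_le_encard hsub) ?_
  refine le_trans (Set.encard_insert_le _ _) ?_
  push_cast
  gcongr
  exact le_trans (Set.encard_image_le _ _) h1

end Pool.Agent.Results.MP_9b502d_nt.DrinfeldRankTwoCurves
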