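import Pool.Agent.H209R3.Fun10

set_option autoImplicit false

namespace Pool.Agent.Results.MP_9b502d_nt.DrinfeldRankTwoGenusZero

open Pool.Agent.H209R3 Pool.Agent.H209R3.Gen Pool.Agent.H209R3.Fun Polynomial

/-- Let k be any field of characteristic p > 0, q ≥ 3 a power of p, and let θ = u/v in k(X), with
u, v of degree at most d and u'v - uv' ≠ 0, so that L = k(X) is a separable extension of k(T),
T ↦ θ. Every map f(z) = c + θ z + g z^q + Δ z^(q^2) with c, g, Δ in L, Δ ≠ 0, has at most
q^(2(8d+1)^2+2) + 1 preperiodic points in P^1(L); the bound depends only on q and d. -/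
theorem result :
    ∀ (p e : ℕ) (k : Type) [Field k] [CharP k p], p.Prime → 3 ≤ p ^ e →
      ∀ (d : ℕ) (u v : k[X]), u.natDegree ≤ d → v.natDegree ≤ d → v ≠ 0 →
      derivative u * v - u * derivative v ≠ 0 →
      ∀ (c g Δ : RatFunc k), Δ ≠ 0 → ∀ f : RatFunc k → RatFunc k,
      (∀ z, f z = c + algebraMap k[X] (RatFunc k) u / algebraMap k[X] (RatFunc k) v * z
        + g * z ^ (p ^ e) + Δ * z ^ ((p ^ e) ^ 2)) →
      {P : OnePoint (RatFunc k) | ∃ m n : ℕ, m < n ∧
          (OnePoint.map f)^[m] P = (OnePoint.map f)^[n] P}.encard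
        ≤ (((p ^ e) ^ (2 * (8 * d + 1) * (8 * d + 1) + 2) + 1 : ℕ) : ℕ∞) := by
  intro p e k _ _ hp hq d u v hu hv hv0 hsep c g Δ hΔ f hf
  haveI : Fact p.Prime := ⟨hp⟩
  have h1 := gz p e hq d u v hu hv hv0 hsep c g Δ hΔ f hf
  have hiter : ∀ (n : ℕ) (x : RatFunc k), (OnePoint.map f)^[n] (x : OnePoint (RatFunc k))
      = ((f^[n] x : RatFunc k) : OnePoint (RatFunc k)) := by
    intro n
    induction n with
    | zero => intro x; rfl
    | succ n ih =>
      intro x
      rw [Function.iterate_succ_apply, Function.iterate_succ_apply, ← ih]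
      rfl
  have hsub : {P : OnePoint (RatFunc k) | ∃ m n : ℕ, m < n ∧
          (OnePoint.map f)^[m] P = (OnePoint.map f)^[n] P} ⊆
      insert OnePoint.infty ((fun x : RatFunc k => (x : OnePoint (RatFunc k))) ''
        {x : RatFunc k | ∃ m n : ℕ, m < n ∧ f^[m] x = f^[n] x}) := by
    intro P
    induction P using OnePoint.rec with
    | infty => intro _; exact Set.mem_insert _ _
    | coe x =>
      rintro ⟨m, n, hmn, hx⟩
      apply Set.mem_insert_of_mem
      refine ⟨x, ⟨m, n, hmn, ?_⟩, rfl⟩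
      rw [hiter, hiter] at hx
      exact OnePoint.coe_injective hx
  refine le_trans (Set.encard_le_encard hsub) ?_
  refine le_trans (Set.encard_insert_le _ _) ?_
  rw [Nat.cast_add, Nat.cast_one]
  gcongr
  exact le_trans (Set.encard_image_le _ _) h1

end Pool.Agent.Results.MP_9b502d_nt.DrinfeldRankTwoGenusZero
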