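import Pool.Agent.H209R3.Gen8

set_option autoImplicit false

namespace Pool.Agent.Results.MP_9b502d_nt.DrinfeldRankTwoUBP

open Pool.Agent.H209R3.Gen

/-- Let k be any field of characteristic p > 0, q ≥ 3 a power of p, K = k(T), and
f(z) = c + T z + g z^q + Δ z^(q^2) with c, g, Δ in K, Δ ≠ 0. Then f has at most q^2 + 1
preperiodic points in P^1(K) (the point ∞ being fixed by f). -/
theorem result :
    ∀ (p e : ℕ) (k : Type) [Field k] [CharP k p], p.Prime → 3 ≤ p ^ e →
      ∀ (c g Δ : RatFunc k), Δ ≠ 0 → ∀ f : RatFunc k → RatFunc k,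
      (∀ z, f z = c + RatFunc.X * z + g * z ^ (p ^ e) + Δ * z ^ ((p ^ e) ^ 2)) →
      {P : OnePoint (RatFunc k) | ∃ m n : ℕ, m < n ∧
          (OnePoint.map f)^[m] P = (OnePoint.map f)^[n] P}.encard
        ≤ (((p ^ e) ^ 2 + 1 : ℕ) : ℕ∞) := by
  intro p e k _ _ hp hq c g Δ hΔ f hf
  haveI : Fact p.Prime := ⟨hp⟩
  have h1 := boundAff p e hq c g Δ hΔ
  have hfeq : f = fun y : RatFunc k => c + RatFunc.X * y + g * y ^ p ^ e
      + Δ * y ^ ((p ^ e) ^ 2) := funext hf
  rw [← hfeq] at h1
  have hiter : ∀ (n : ℕ) (x : RatFunc k), (OnePoint.map f)^[n] (x : OnePoint (RatFunc k))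
      = ((f^[n] x : RatFunc k) : OnePoint (RatFunc k)) := by
    intro n
    induction n with
    | zero => intro x; rfl
    | succ n ih =>
      intro x
      rw [Function.iterate_succ_apply, Function.iterate_succ_apply, ← ih]
      rfl
  have hsub : {P : OnePoint (RatFunc k) | ∃ m n : ℕ, m < n ∧
          (OnePoint.map f)^[m] P = (OnePoint.map f)^[n] P} ⊆
      insert OnePoint.infty ((fun x : RatFunc k => (x : OnePoint (RatFunc k))) ''
        {x : RatFunc k | ∃ m n : ℕ, m < n ∧ f^[m] x = f^[n] x}) := by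
    intro P
    induction P using OnePoint.rec with
    | infty => intro _; exact Set.mem_insert _ _
    | coe x =>
      rintro ⟨m, n, hmn, hx⟩
      apply Set.mem_insert_of_mem
      refine ⟨x, ⟨m, n, hmn, ?_⟩, rfl⟩
      rw [hiter, hiter] at hx
      exact OnePoint.coe_injective hx
  refine le_trans (Set.encard_le_encard hsub) ?_
  refine le_trans (Set.encard_insert_le _ _) ?_
  push_cast
  gcongr
  refine le_trans (Set.encard_image_le _ _) ?_
  have := h1
  push_cast at this
  exact this

end Pool.Agent.Results.MP_9b502d_nt.DrinfeldRankTwoUBP
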