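import Pool.Agent.H799R3.UniStruct

/-!
# MP_9b502d_nt: unicritical polynomials of degree divisible by the characteristic

Let `k` be any field of characteristic `p > 0`, and let `d` be divisible by `p` but not a power
of `p`: `d = p ^ s * e` with `s ≥ 1`, `e ≥ 2` and `p ∤ e`. For every non-constant `c ∈ k(t)` the
polynomial `f(z) = z ^ d + c` has at most one (at most two if `e = 2`) periodic points in `k(t)`,
it maps every point of `k(t)` with finite forward orbit to a periodic point, and there are at
most `e` (at most `4` if `e = 2`) points of `k(t)` with finite forward orbit. The last bound is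
attained as soon as `k` contains a primitive `e`-th root of unity.
-/

namespace Pool.Agent.Results.MP_9b502d_nt.UnicriticalCharP

open H799Uni in
theorem result {k : Type*} [Field k] {p s e : ℕ} [Fact p.Prime] [CharP k p]
    (hs : 1 ≤ s) (he : 2 ≤ e) (hpe : ¬ p ∣ e) :
    (∀ c : RatFunc k, c ∉ Set.range (RatFunc.C : k →+* RatFunc k) →
      ∀ f : RatFunc k → RatFunc k, (∀ z, f z = z ^ (p ^ s * e) + c) →
        (Function.periodicPts f).encard ≤ ((if e = 2 then 2 else 1 : ℕ) : ℕ∞) ∧
        (∀ x, (Set.range fun n : ℕ => f^[n] x).Finite → f x ∈ Function.periodicPts f) ∧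
        {x | (Set.range fun n : ℕ => f^[n] x).Finite}.encard ≤
          ((if e = 2 then 4 else e : ℕ) : ℕ∞)) ∧
    ((∃ ζ : k, IsPrimitiveRoot ζ e) → ∃ c : RatFunc k,
      c ∉ Set.range (RatFunc.C : k →+* RatFunc k) ∧
      {x : RatFunc k | (Set.range fun n : ℕ =>
        (fun z : RatFunc k => z ^ (p ^ s * e) + c)^[n] x).Finite}.encard =
          ((if e = 2 then 4 else e : ℕ) : ℕ∞)) := by
  have upper : ∀ c : RatFunc k, c ∉ Set.range (RatFunc.C : k →+* RatFunc k) →
      {x : RatFunc k | (Set.range fun n : ℕ =>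
        (fun z : RatFunc k => z ^ (p ^ s * e) + c)^[n] x).Finite}.encard ≤
          ((if e = 2 then 4 else e : ℕ) : ℕ∞) := by
    intro c hc
    have hc' : ∀ a : k, c ≠ RatFunc.C a := fun a ha => hc ⟨a, ha.symm⟩
    split_ifs with h
    · subst h
      have hp2 : p ≠ 2 := by
        rintro rfl
        exact hpe (dvd_refl 2)
      exact encard_two_general hp2 hs rfl hc'
    · exact encard_general hs (by omega) hpe rfl hc'
  refine ⟨?_, ?_⟩
  · intro c hc f hf
    obtain rfl : f = uni (p ^ s * e) c := funext hf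
    have hc' : ∀ a : k, c ≠ RatFunc.C a := fun a ha => hc ⟨a, ha.symm⟩
    obtain ⟨h1, h2⟩ := struct_general hs he hpe rfl hc'
    exact ⟨h1, h2, upper c hc⟩
  · rintro ⟨ζ, hζ⟩
    by_cases h : e = 2
    · subst h
      have hp2 : p ≠ 2 := by
        rintro rfl
        exact hpe (dvd_refl 2)
      obtain ⟨c, hc, hcard⟩ := sharp_four (k := k) (p := p) (s := s) hp2 hs rfl
      have hc' : c ∉ Set.range (RatFunc.C : k →+* RatFunc k) := fun ⟨a, ha⟩ => hc a ha.symm
      exact ⟨c, hc', le_antisymm (upper c hc') (by rw [if_pos rfl]; exact hcard)⟩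
    · obtain ⟨c, hc, hcard⟩ := sharp_e (k := k) (p := p) (s := s) hs (by omega : 1 ≤ e) rfl hζ
      have hc' : c ∉ Set.range (RatFunc.C : k →+* RatFunc k) := fun ⟨a, ha⟩ => hc a ha.symm
      exact ⟨c, hc', le_antisymm (upper c hc') (by rw [if_neg h]; exact hcard)⟩

end Pool.Agent.Results.MP_9b502d_nt.UnicriticalCharP
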